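import Mathlib

set_option autoImplicit false

namespace Pool.Agent.Results.MP_61df98_mp.No

open Polynomial

/-- The Floquet matrix at quasimomentum `1`: diagonal `V`, ones next to the diagonal and in
the two corners. -/
def L {R : Type} [CommRing R] (q : ℕ) (V : Fin q → R) : Matrix (Fin q) (Fin q) R :=
  Matrix.of fun i j => if i = j then V i else
    if i.val + 1 = j.val ∨ j.val + 1 = i.val ∨ (i.val = 0 ∧ j.val + 1 = q) ∨
      (j.val = 0 ∧ i.val + 1 = q) then 1 else 0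

/-- The polynomial `det (L_V - λ I)` in the variable `λ = X`. -/
noncomputable def D {R : Type} [CommRing R] (q : ℕ) (V : Fin q → R) : R[X] :=
  ((L q V).map C - (X : R[X]) • (1 : Matrix (Fin q) (Fin q) R[X])).det

/-- The generic antisymmetric potential `(u_1, ..., u_m, (0,) -u_m, ..., -u_1)`. -/
noncomputable def U (q : ℕ) : Fin q → MvPolynomial (Fin (q / 2)) ℂ := fun j =>
  if h : j.val < q / 2 then MvPolynomial.X ⟨j.val, h⟩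
  else if h2 : q - 1 - j.val < q / 2 then -MvPolynomial.X ⟨q - 1 - j.val, h2⟩ else 0

/-- The polynomial `p'_k`. -/
noncomputable def p (q k : ℕ) : MvPolynomial (Fin (q / 2)) ℂ :=
  (-1) ^ (q + k) * (D q (U q) - D q 0).coeff (q - 2 * k)

/-- The ideal `I'`. -/
noncomputable def I (q : ℕ) : Ideal (MvPolynomial (Fin (q / 2)) ℂ) :=
  Ideal.span {f | ∃ k, 1 ≤ k ∧ k ≤ q / 2 ∧ f = p q k}

/-- The classes in `ℂ[u]/I'` of the polynomials that do not vanish at `a`. -/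
noncomputable def away (q : ℕ) (a : Fin (q / 2) → ℂ) :
    Submonoid (MvPolynomial (Fin (q / 2)) ℂ ⧸ I q) :=
  ((nonZeroDivisors ℂ).comap (MvPolynomial.eval a)).map (Ideal.Quotient.mk (I q))

/-- The multiplicity of `a`: the dimension over `ℂ` of the local ring of `ℂ[u]/I'` at `a`. -/
noncomputable def mult (q : ℕ) (a : Fin (q / 2) → ℂ) : Cardinal :=
  Module.rank ℂ (Localization (away q a))

section Det

variable {R : Type} [CommRing R]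

def sol (d : ℕ → R) (s t : R) : ℕ → R
  | 0 => s
  | 1 => t
  | j + 2 => -(d (j + 1) * sol d s t (j + 1)) - sol d s t j

theorem wr (d : ℕ → R) : ∀ j, sol d 1 0 j * sol d 0 1 (j + 1) - sol d 1 0 (j + 1) * sol d 0 1 j = 1
  | 0 => by simp [sol]
  | j + 1 => by
    have := wr d j
    simp only [sol]
    linear_combination this

def Tm (d : ℕ → R) : Matrix (Fin 15) (Fin 15) R :=
  Matrix.of fun i j => if i.val = j.val then 1 else if 2 ≤ i.val ∧ j.val + 1 = i.val then d j.val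
    else if j.val + 2 = i.val then 1 else 0

def Um : Matrix (Fin 15) (Fin 2) R := Matrix.of fun i j => if i.val = j.val then 1 else 0

def Vm (d : ℕ → R) : Matrix (Fin 2) (Fin 15) R :=
  Matrix.of fun i j => if i.val = 0 then (if j.val = 13 then 1 else if j.val = 14 then d 14 else 0)
    else (if j.val = 0 then d 0 else if j.val = 14 then 1 else 0)

def Ym (d : ℕ → R) : Matrix (Fin 15) (Fin 2) R :=
  Matrix.of fun i j => if j.val = 0 then sol d 1 0 i.val else sol d 0 1 i.val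

theorem row (d : ℕ → R) (s t : R) (i : Fin 15) :
    ∑ k : Fin 15, Tm d i k * sol d s t k.val =
      if i.val = 0 then s else if i.val = 1 then t else 0 := by
  obtain ⟨i, hi⟩ := i
  simp only [Fin.sum_univ_succ, Fin.sum_univ_zero, Tm, Matrix.of_apply, Fin.val_succ,
    Fin.val_zero]
  interval_cases i <;> norm_num <;> simp only [sol] <;> ring

theorem TY (d : ℕ → R) : Tm d * Ym d = Um := by
  ext i j
  rw [Matrix.mul_apply]
  obtain ⟨j, hj⟩ := j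
  interval_cases j
  · refine (row d 1 0 i).trans ?_
    simp only [Um, Matrix.of_apply]
    split_ifs <;> rfl
  · refine (row d 0 1 i).trans ?_
    simp only [Um, Matrix.of_apply]
    split_ifs <;> first | rfl | omega

theorem LT (d : ℕ → R) :
    L 15 (fun j => d j.val) = Matrix.submatrix
      (Tm d + (Um : Matrix (Fin 15) (Fin 2) R) * Vm d : Matrix (Fin 15) (Fin 15) R)
      (finRotate 15) id := by
  ext i j
  rw [Matrix.submatrix_apply, finRotate_apply]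
  have hv : ((i + 1 : Fin 15)).val = (i.val + 1) % 15 := Fin.val_add i 1
  simp only [L, Tm, Um, Vm, Matrix.add_apply, Matrix.mul_apply, Fin.sum_univ_two,
    Matrix.of_apply, id, hv, Fin.ext_iff, Fin.val_zero, Fin.val_one]
  obtain ⟨i, hi⟩ := i
  obtain ⟨j, hj⟩ := j
  simp only []
  clear hv
  interval_cases i <;> interval_cases j <;> norm_num

theorem detT (d : ℕ → R) : (Tm d).det = 1 := by
  rw [Matrix.det_of_lowerTriangular]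
  · simp [Tm]
  · intro i j h
    have h1 : i.val < j.val := h
    have h2 : ¬ (i.val = j.val) := by omega
    have h3 : ¬ (2 ≤ i.val ∧ j.val + 1 = i.val) := by omega
    have h4 : ¬ (j.val + 2 = i.val) := by omega
    simp only [Tm, Matrix.of_apply, h2, h3, h4, if_false]

theorem VY (d : ℕ → R) (s t : R) (i : Fin 2) :
    ∑ k : Fin 15, Vm d i k * sol d s t k.val =
      if i.val = 0 then sol d s t 13 + d 14 * sol d s t 14 else d 0 * s + sol d s t 14 := by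
  obtain ⟨i, hi⟩ := i
  simp only [Fin.sum_univ_succ, Fin.sum_univ_zero, Vm, Matrix.of_apply, Fin.val_succ,
    Fin.val_zero]
  interval_cases i <;> norm_num
  rfl

theorem detL (d : ℕ → R) : (L 15 (fun j => d j.val)).det =
    2 + (sol d 0 1 14 - sol d 1 0 15 + d 0 * sol d 0 1 15) := by
  have e : (Tm d + (Um : Matrix (Fin 15) (Fin 2) R) * Vm d : Matrix (Fin 15) (Fin 15) R) =
      Tm d * (1 + Ym d * Vm d) := by
    rw [Matrix.mul_add, Matrix.mul_one, ← Matrix.mul_assoc, TY]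
  rw [LT, Matrix.det_permute, sign_finRotate, e, Matrix.det_mul, detT,
    Matrix.det_one_add_mul_comm, Matrix.det_fin_two]
  have w : sol d 1 0 14 * sol d 0 1 15 - sol d 1 0 15 * sol d 0 1 14 = 1 := wr d 14
  have e1 : sol d 1 0 15 = -(d 14 * sol d 1 0 14) - sol d 1 0 13 := rfl
  have e2 : sol d 0 1 15 = -(d 14 * sol d 0 1 14) - sol d 0 1 13 := rfl
  have a00 : (Vm d * Ym d) 0 0 = sol d 1 0 13 + d 14 * sol d 1 0 14 := VY d 1 0 0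
  have a01 : (Vm d * Ym d) 0 1 = sol d 0 1 13 + d 14 * sol d 0 1 14 := VY d 0 1 0
  have a10 : (Vm d * Ym d) 1 0 = d 0 * 1 + sol d 1 0 14 := VY d 1 0 1
  have a11 : (Vm d * Ym d) 1 1 = d 0 * 0 + sol d 0 1 14 := VY d 0 1 1
  simp only [Matrix.add_apply, a00, a01, a10, a11, Matrix.one_fin_two]
  rw [e1, e2] at w
  rw [e1, e2]
  norm_num
  linear_combination w

def vv (i a e : R) (j : ℕ) : R :=
  [a, -i*a, e, i*a, -a, a, -i*a, 0, i*a, -a, a, -i*a, -e, i*a, -a].getD j 0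

theorem key (i a e x : R) (hi : i * i + 1 = 0) (ha : a * a - (1 + 2 * i) = 0) (he : e * e = 0)
    (d f : ℕ → R) (hd : ∀ j, d j = vv i a e j + x) (hf : ∀ j, f j = x) :
    sol d 0 1 14 - sol d 1 0 15 + d 0 * sol d 0 1 15 =
      sol f 0 1 14 - sol f 1 0 15 + f 0 * sol f 0 1 15 := by
  have hd0 : d 0 = a + x := (hd 0).trans (by show (a) + x = _; ring)
  have hf0 : f 0 = x := hf _
  have hd1 : d 1 = -i*a + x := (hd 1).trans (by show (-i*a) + x = _; ring)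
  have hf1 : f 1 = x := hf _
  have hd2 : d 2 = e + x := (hd 2).trans (by show (e) + x = _; ring)
  have hf2 : f 2 = x := hf _
  have hd3 : d 3 = i*a + x := (hd 3).trans (by show (i*a) + x = _; ring)
  have hf3 : f 3 = x := hf _
  have hd4 : d 4 = -a + x := (hd 4).trans (by show (-a) + x = _; ring)
  have hf4 : f 4 = x := hf _
  have hd5 : d 5 = a + x := (hd 5).trans (by show (a) + x = _; ring)
  have hf5 : f 5 = x := hf _
  have hd6 : d 6 = -i*a + x := (hd 6).trans (by show (-i*a) + x = _; ring)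
  have hf6 : f 6 = x := hf _
  have hd7 : d 7 = x := (hd 7).trans (by show (0) + x = _; ring)
  have hf7 : f 7 = x := hf _
  have hd8 : d 8 = i*a + x := (hd 8).trans (by show (i*a) + x = _; ring)
  have hf8 : f 8 = x := hf _
  have hd9 : d 9 = -a + x := (hd 9).trans (by show (-a) + x = _; ring)
  have hf9 : f 9 = x := hf _
  have hd10 : d 10 = a + x := (hd 10).trans (by show (a) + x = _; ring)
  have hf10 : f 10 = x := hf _
  have hd11 : d 11 = -i*a + x := (hd 11).trans (by show (-i*a) + x = _; ring)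
  have hf11 : f 11 = x := hf _
  have hd12 : d 12 = -e + x := (hd 12).trans (by show (-e) + x = _; ring)
  have hf12 : f 12 = x := hf _
  have hd13 : d 13 = i*a + x := (hd 13).trans (by show (i*a) + x = _; ring)
  have hf13 : f 13 = x := hf _
  have hd14 : d 14 = -a + x := (hd 14).trans (by show (-a) + x = _; ring)
  have hf14 : f 14 = x := hf _
  have y0 : sol d 1 0 0 = 1 := rfl
  have y1 : sol d 1 0 1 = 0 := rfl
  have y2 : sol d 1 0 2 = -1 := by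
    rw [show sol d 1 0 2 = -(d 1 * sol d 1 0 1) - sol d 1 0 0 from rfl,
      y1, y0, hd1]; ring
  have y3 : sol d 1 0 3 = e + x := by
    rw [show sol d 1 0 3 = -(d 2 * sol d 1 0 2) - sol d 1 0 1 from rfl,
      y2, y1, hd2]; ring
  have y4 : sol d 1 0 4 = 1 - i*a*e - x*e - x*i*a - x^2 := by
    rw [show sol d 1 0 4 = -(d 3 * sol d 1 0 3) - sol d 1 0 2 from rfl,
      y3, y2, hd3]; ring
  have y5 : sol d 1 0 5 = e + a - i*e - x*a*e - x*i + x*i*a*e + x^2*e - x^2*a + x^2*i*a + x^3 := by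
    rw [show sol d 1 0 5 = -(d 4 * sol d 1 0 4) - sol d 1 0 3 from rfl,
      y4, y3, hd4]; linear_combination (-i*e - x*i) * ha + (-2*e - 2*x) * hi
  have y6 : sol d 1 0 6 = -2 - a*e - 2*i + 2*i*a*e + 3*x*e - x*a + 2*x*i*e + 2*x*i*a + 4*x^2 + 2*x^2*i - x^2*i*a*e - x^3*e - x^3*i*a - x^4 := by
    rw [show sol d 1 0 6 = -(d 5 * sol d 1 0 5) - sol d 1 0 4 from rfl,
      y5, y4, hd5]; linear_combination (-1 + x*e - x*i*e + x^2 - x^2*i) * ha + (-2*x*e - 2*x^2) * hi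
  have y7 : sol d 1 0 7 = -e + a - 4*i*e - 2*i*a + 2*x - 2*x*i - 3*x^2*e + x^2*i*a - 4*x^3 + x^4*e + x^5 := by
    rw [show sol d 1 0 7 = -(d 6 * sol d 1 0 6) - sol d 1 0 5 from rfl,
      y6, y5, hd6]; linear_combination (-i*e + 2*i^2*e - x*i + 2*x*i^2 - x^2*i^2*e - x^3*i^2) * ha + (-2*a + 4*i*e + 2*x*a*e + 4*x*i - x^2*e + 2*x^2*a - 2*x^2*i*e - x^3 - 2*x^3*i) * hi
  have y8 : sol d 1 0 8 = 2 + a*e + 2*i - 2*i*a*e - 2*x*e + 2*x*i*e - 6*x^2 + x^2*i*a*e + 4*x^3*e + 5*x^4 - x^5*e - x^6 := by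
    rw [show sol d 1 0 8 = -(d 7 * sol d 1 0 7) - sol d 1 0 6 from rfl,
      y7, y6, hd7]; ring
  have y9 : sol d 1 0 9 = e + a - i*e - 4*x + x*a*e + 4*x*i*a*e + 6*x^2*e + 5*x^2*i*a + 10*x^3 - 5*x^3*i*a*e - 5*x^4*e - 5*x^4*i*a - 6*x^5 + x^5*i*a*e + x^6*e + x^6*i*a + x^7 := by
    rw [show sol d 1 0 9 = -(d 8 * sol d 1 0 8) - sol d 1 0 7 from rfl,
      y8, y7, hd8]; linear_combination (-i*e + 2*i^2*e - x^2*i^2*e) * ha + (-2*a + 4*i*e - 2*x*a*e - x^2*e - 2*x^2*i*e) * hi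
  have y10 : sol d 1 0 10 = -1 + i*a*e - 6*x*e - 5*x*a + 5*x*i*e + 5*x^2*a*e + 5*x^2*i - 5*x^2*i*a*e + 10*x^3*a - 5*x^3*i*e - 5*x^3*i*a - 5*x^4 - 5*x^4*a*e - 5*x^4*i + 5*x^4*i*a*e + 4*x^5*e - 6*x^5*a + x^5*i*e + 5*x^5*i*a + 5*x^6 + x^6*a*e + x^6*i - x^6*i*a*e - x^7*e + x^7*a - x^7*i*a - x^8 := by
    rw [show sol d 1 0 10 = -(d 9 * sol d 1 0 9) - sol d 1 0 8 from rfl,
      y9, y8, hd9]; linear_combination (1 + x*e + 4*x*i*e + 5*x^2*i - 5*x^3*i*e - 5*x^4*i + x^5*i*e + x^6*i) * ha + (8*x*e + 10*x^2 - 10*x^3*e - 10*x^4 + 2*x^5*e + 2*x^6) * hi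
  have y11 : sol d 1 0 11 = e + 10*x + 5*x*a*e + 10*x*i - 10*x*i*a*e - 15*x^2*e + 5*x^2*a - 10*x^2*i*e - 10*x^2*i*a - 30*x^3 - 5*x^3*a*e - 20*x^3*i + 15*x^3*i*a*e + 20*x^4*e - 5*x^4*a + 10*x^4*i*e + 15*x^4*i*a + 27*x^5 + x^5*a*e + 12*x^5*i - 7*x^5*i*a*e - 8*x^6*e + x^6*a - 2*x^6*i*e - 7*x^6*i*a - 9*x^7 - 2*x^7*i + x^7*i*a*e + x^8*e + x^8*i*a + x^9 := by
    rw [show sol d 1 0 11 = -(d 10 * sol d 1 0 10) - sol d 1 0 9 from rfl,
      y10, y9, hd10]; linear_combination (-i*e + 5*x - 5*x^2*e + 5*x^2*i*e - 10*x^3 + 5*x^3*i + 5*x^4*e - 5*x^4*i*e + 6*x^5 - 5*x^5*i - x^6*e + x^6*i*e - x^7 + x^7*i) * ha + (-2*e + 10*x^2*e + 10*x^3 - 10*x^4*e - 10*x^5 + 2*x^6*e + 2*x^7) * hi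
  have y12 : sol d 1 0 12 = 1 + 5*x*e - 5*x*a + 20*x*i*e + 10*x*i*a - 10*x^2 + 10*x^2*i + 10*x^3*e + 5*x^3*a - 20*x^3*i*e - 15*x^3*i*a + 30*x^4 - 10*x^4*i - 19*x^5*e - x^5*a + 4*x^5*i*e + 7*x^5*i*a - 27*x^6 + 2*x^6*i + 8*x^7*e - x^7*i*a + 9*x^8 - x^9*e - x^10 := by
    rw [show sol d 1 0 12 = -(d 11 * sol d 1 0 11) - sol d 1 0 10 from rfl,
      y11, y10, hd11]; linear_combination (5*x*i*e - 10*x*i^2*e + 5*x^2*i - 10*x^2*i^2 - 5*x^3*i*e + 15*x^3*i^2*e - 5*x^4*i + 15*x^4*i^2 + x^5*i*e - 7*x^5*i^2*e + x^6*i - 7*x^6*i^2 + x^7*i^2*e + x^8*i^2) * ha + (10*x*a - 20*x*i*e - 10*x^2*a*e - 20*x^2*i + 5*x^3*e - 20*x^3*a + 30*x^3*i*e + 5*x^4 + 10*x^4*a*e + 30*x^4*i - 5*x^5*e + 12*x^5*a - 14*x^5*i*e - 5*x^6 - 2*x^6*a*e - 14*x^6*i + x^7*e - 2*x^7*a + 2*x^7*i*e + x^8 + 2*x^8*i) * hi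
  have y13 : sol d 1 0 13 = -11*x - 10*x*a*e - 10*x*i + 20*x*i*a*e + 40*x^3 + 10*x^3*a*e + 10*x^3*i - 30*x^3*i*a*e - 57*x^5 - 2*x^5*a*e - 2*x^5*i + 14*x^5*i*a*e + 36*x^7 - 2*x^7*i*a*e - 10*x^9 + x^11 := by
    rw [show sol d 1 0 13 = -(d 12 * sol d 1 0 12) - sol d 1 0 11 from rfl,
      y12, y11, hd12]; linear_combination (5*x + 20*x*i + 10*x^3 - 20*x^3*i - 19*x^5 + 4*x^5*i + 8*x^7 - x^9) * he
  have y14 : sol d 1 0 14 = -1 - 5*x*e - 5*x*a + 30*x*i*e + x*i*a + 21*x^2 + 10*x^2*a*e - 20*x^2*i*a*e - 20*x^3*e + 5*x^3*a - 50*x^3*i*e - 25*x^3*i*a - 70*x^4 - 10*x^4*a*e + 30*x^4*i*a*e + 29*x^5*e - x^5*a + 26*x^5*i*e + 50*x^5*i*a + 84*x^6 + 2*x^6*a*e - 14*x^6*i*a*e - 10*x^7*e - 4*x^7*i*e - 35*x^7*i*a - 45*x^8 + 2*x^8*i*a*e + x^9*e + 10*x^9*i*a + 11*x^10 - x^11*i*a - x^12 := by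
    rw [show sol d 1 0 14 = -(d 13 * sol d 1 0 13) - sol d 1 0 12 from rfl,
      y13, y12, hd13]; linear_combination (10*x*i*e - 20*x*i^2*e - 10*x^3*i*e + 30*x^3*i^2*e + 2*x^5*i*e - 14*x^5*i^2*e + 2*x^7*i^2*e) * ha + (10*x*a - 40*x*i*e + 10*x^3*e - 10*x^3*a + 60*x^3*i*e - 10*x^5*e + 2*x^5*a - 28*x^5*i*e + 2*x^7*e + 4*x^7*i*e) * hi
  have y15 : sol d 1 0 15 = -a + 5*x + 5*x*a*e + x*i + 10*x*i*a*e + 55*x^2*e + 26*x^2*a - 30*x^2*i*e - x^2*i*a - 6*x^3 - 40*x^3*a*e - 25*x^3*i - 50*x^4*e - 75*x^4*a + 60*x^4*i*e + 25*x^4*i*a + 26*x^5 + 41*x^5*a*e + 50*x^5*i - 18*x^5*i*a*e + x^6*e + 85*x^6*a - 36*x^6*i*e - 50*x^6*i*a - 50*x^7 - 12*x^7*a*e - 35*x^7*i + 12*x^7*i*a*e + 6*x^8*e - 45*x^8*a + 6*x^8*i*e + 35*x^8*i*a + 35*x^9 + x^9*a*e + 10*x^9*i - 2*x^9*i*a*e - x^10*e + 11*x^10*a - 10*x^10*i*a - 10*x^11 - x^11*i - x^12*a + x^12*i*a + x^13 := by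
    rw [show sol d 1 0 15 = -(d 14 * sol d 1 0 14) - sol d 1 0 13 from rfl,
      y14, y13, hd14]; linear_combination (-5*x + x*i + 10*x^2*e - 20*x^2*i*e + 5*x^3 - 25*x^3*i - 10*x^4*e + 30*x^4*i*e - x^5 + 50*x^5*i + 2*x^6*e - 14*x^6*i*e - 35*x^7*i + 2*x^8*i*e + 10*x^9*i - x^11*i) * ha + (2*x - 40*x^2*e - 50*x^3 + 60*x^4*e + 100*x^5 - 28*x^6*e - 70*x^7 + 4*x^8*e + 20*x^9 - 2*x^11) * hi
  have z0 : sol d 0 1 0 = 0 := rfl
  have z1 : sol d 0 1 1 = 1 := rfl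
  have z2 : sol d 0 1 2 = i*a - x := by
    rw [show sol d 0 1 2 = -(d 1 * sol d 0 1 1) - sol d 0 1 0 from rfl,
      z1, z0, hd1]; ring
  have z3 : sol d 0 1 3 = -1 - i*a*e + x*e - x*i*a + x^2 := by
    rw [show sol d 0 1 3 = -(d 2 * sol d 0 1 2) - sol d 0 1 1 from rfl,
      z2, z1, hd2]; ring
  have z4 : sol d 0 1 4 = -e - 2*i*e + x - 2*x*i - x^2*e - x^3 := by
    rw [show sol d 0 1 4 = -(d 3 * sol d 0 1 3) - sol d 0 1 2 from rfl,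
      z3, z2, hd3]; linear_combination (i^2*e + x*i^2) * ha + (e + 2*i*e + x + 2*x*i) * hi
  have z5 : sol d 0 1 5 = 1 - a*e - i*a*e + x*a + 2*x*i*e - x*i*a - 2*x^2 - x^2*a*e + 2*x^2*i + x^3*e - x^3*a + x^4 := by
    rw [show sol d 0 1 5 = -(d 4 * sol d 0 1 4) - sol d 0 1 3 from rfl,
      z4, z3, hd4]; ring
  have z6 : sol d 0 1 6 = -a + 5*i*e - 5*x + x*a*e + x*i - x*i*a*e + 2*x^2*e + x^2*a - x^2*i*a + 4*x^3 - x^4*e - x^5 := by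
    rw [show sol d 0 1 6 = -(d 5 * sol d 0 1 5) - sol d 0 1 4 from rfl,
      z5, z4, hd5]; linear_combination (e + i*e - x + x*i + x^2*e + x^3) * ha + (2*e + 2*x) * hi
  have z7 : sol d 0 1 7 = 1 - 4*a*e - i + i*a*e - x*e - x*a - 4*x*i*e - 4*x*i*a + 6*x^2 + 3*x^2*i*a*e - 3*x^3*e + 5*x^3*i*a - 5*x^4 - x^4*i*a*e + x^5*e - x^5*i*a + x^6 := by
    rw [show sol d 0 1 7 = -(d 6 * sol d 0 1 6) - sol d 0 1 5 from rfl,
      z6, z5, hd6]; linear_combination (-i + x*i*e - x*i^2*e + x^2*i - x^2*i^2) * ha + (-2 + 5*a*e + x*e + x*a - 2*x*i*e + x^2 - 2*x^2*i) * hi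
  have z8 : sol d 0 1 8 = a - 5*i*e + 4*x + 3*x*a*e - x^2*e + 4*x^2*i*e + 5*x^2*i*a - 10*x^3 - 3*x^3*i*a*e + 4*x^4*e - 5*x^4*i*a + 6*x^5 + x^5*i*a*e - x^6*e + x^6*i*a - x^7 := by
    rw [show sol d 0 1 8 = -(d 7 * sol d 0 1 7) - sol d 0 1 6 from rfl,
      z7, z6, hd7]; ring
  have z9 : sol d 0 1 9 = 1 - a*e - i*a*e + 7*x*e + 6*x*i*e - 5*x^2 + x^2*a*e + 10*x^2*i - 2*x^2*i*a*e + x^3*e - 10*x^3*i*e + 10*x^4 - 10*x^4*i - 4*x^5*e + 2*x^5*i*e - 6*x^6 + 2*x^6*i + x^7*e + x^8 := by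
    rw [show sol d 0 1 9 = -(d 8 * sol d 0 1 8) - sol d 0 1 7 from rfl,
      z8, z7, hd8]; linear_combination (-i - 3*x*i*e - 5*x^2*i^2 + 3*x^3*i^2*e + 5*x^4*i^2 - x^5*i^2*e - x^6*i^2) * ha + (-2 + 5*a*e - 6*x*e - 5*x^2 - 4*x^2*a*e - 10*x^2*i + 3*x^3*e + 6*x^3*i*e + 5*x^4 + 10*x^4*i - x^5*e - 2*x^5*i*e - x^6 - 2*x^6*i) * hi
  have z10 : sol d 0 1 10 = e + 2*i*e - 5*x + 5*x*a*e + 7*x*i*a*e - x^2*e - 5*x^2*a - 10*x^2*i*e + 5*x^2*i*a + 15*x^3 - 10*x^3*i - 5*x^3*i*a*e - 5*x^4*e + 10*x^4*a + 10*x^4*i*e - 5*x^4*i*a - 16*x^5 - 4*x^5*a*e + 10*x^5*i + x^5*i*a*e + 5*x^6*e - 6*x^6*a - 2*x^6*i*e + x^6*i*a + 7*x^7 + x^7*a*e - 2*x^7*i - x^8*e + x^8*a - x^9 := by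
    rw [show sol d 0 1 10 = -(d 9 * sol d 0 1 9) - sol d 0 1 8 from rfl,
      z9, z8, hd9]; linear_combination (-e - i*e + x^2*e - 2*x^2*i*e) * ha + (-2*e - 4*x^2*e) * hi
  have z11 : sol d 0 1 11 = -1 - i*a*e + x*e + 5*x*a - 25*x*i*e + 25*x^2 - 5*x^2*a*e - 5*x^2*i + 5*x^2*i*a*e - 10*x^3*e - 10*x^3*a + 25*x^3*i*e + 5*x^3*i*a - 45*x^4 + 5*x^4*a*e + 5*x^4*i - 5*x^4*i*a*e + 15*x^5*e + 6*x^5*a - 5*x^5*i*e - 5*x^5*i*a + 30*x^6 - x^6*a*e - x^6*i + x^6*i*a*e - 7*x^7*e - x^7*a + x^7*i*a - 9*x^8 + x^9*e + x^10 := by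
    rw [show sol d 0 1 11 = -(d 10 * sol d 0 1 10) - sol d 0 1 9 from rfl,
      z10, z9, hd10]; linear_combination (-5*x*e - 7*x*i*e + 5*x^2 - 5*x^2*i + 5*x^3*i*e - 10*x^4 + 5*x^4*i + 4*x^5*e - x^5*i*e + 6*x^6 - x^6*i - x^7*e - x^8) * ha + (-14*x*e - 10*x^2 + 10*x^3*e + 10*x^4 - 2*x^5*e - 2*x^6) * hi
  have z12 : sol d 0 1 12 = -i*a - 4*x + 20*x*a*e + 5*x*i - 5*x*i*a*e + 5*x^2*e + 5*x^2*a + 20*x^2*i*e + 20*x^2*i*a - 25*x^3 - 20*x^3*a*e - 5*x^3*i - 10*x^3*i*a*e + 10*x^4*e - 5*x^4*a - 20*x^4*i*e - 45*x^4*i*a + 54*x^5 + 4*x^5*a*e + x^5*i + 19*x^5*i*a*e - 19*x^6*e + x^6*a + 4*x^6*i*e + 34*x^6*i*a - 36*x^7 - 8*x^7*i*a*e + 8*x^8*e - 10*x^8*i*a + 10*x^9 + x^9*i*a*e - x^10*e + x^10*i*a - x^11 := by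
    rw [show sol d 0 1 12 = -(d 11 * sol d 0 1 11) - sol d 0 1 10 from rfl,
      z11, z10, hd11]; linear_combination (-i^2*e + 5*x*i - 5*x^2*i*e + 5*x^2*i^2*e - 10*x^3*i + 5*x^3*i^2 + 5*x^4*i*e - 5*x^4*i^2*e + 6*x^5*i - 5*x^5*i^2 - x^6*i*e + x^6*i^2*e - x^7*i + x^7*i^2) * ha + (-e - 2*i*e + 10*x - 25*x*a*e - 5*x^2*e - 5*x^2*a + 10*x^2*i*e - 15*x^3 + 25*x^3*a*e + 10*x^3*i + 5*x^4*e + 5*x^4*a - 10*x^4*i*e + 7*x^5 - 5*x^5*a*e - 10*x^5*i - x^6*e - x^6*a + 2*x^6*i*e - x^7 + 2*x^7*i) * hi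
  have z13 : sol d 0 1 13 = 1 - 5*x*e - 5*x*a + 30*x*i*e + x*i*a - 21*x^2 - 10*x^2*a*e + 20*x^2*i*a*e - 20*x^3*e + 5*x^3*a - 50*x^3*i*e - 25*x^3*i*a + 70*x^4 + 10*x^4*a*e - 30*x^4*i*a*e + 29*x^5*e - x^5*a + 26*x^5*i*e + 50*x^5*i*a - 84*x^6 - 2*x^6*a*e + 14*x^6*i*a*e - 10*x^7*e - 4*x^7*i*e - 35*x^7*i*a + 45*x^8 - 2*x^8*i*a*e + x^9*e + 10*x^9*i*a - 11*x^10 - x^11*i*a + x^12 := by
    rw [show sol d 0 1 13 = -(d 12 * sol d 0 1 12) - sol d 0 1 11 from rfl,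
      z12, z11, hd12]; linear_combination (20*x*a - 5*x*i*a + 5*x^2 + 20*x^2*i - 20*x^3*a - 10*x^3*i*a + 10*x^4 - 20*x^4*i + 4*x^5*a + 19*x^5*i*a - 19*x^6 + 4*x^6*i - 8*x^7*i*a + 8*x^8 + x^9*i*a - x^10) * he
  have z14 : sol d 0 1 14 = -6*x + 10*x*a*e + 2*x*i + 10*x*i*a*e + 31*x^3 - 20*x^3*a*e - 50*x^3*i + 10*x^3*i*a*e - 76*x^5 + 12*x^5*a*e + 100*x^5*i - 18*x^5*i*a*e + 85*x^7 - 2*x^7*a*e - 70*x^7*i + 4*x^7*i*a*e - 45*x^9 + 20*x^9*i + 11*x^11 - 2*x^11*i - x^13 := by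
    rw [show sol d 0 1 14 = -(d 13 * sol d 0 1 13) - sol d 0 1 12 from rfl,
      z13, z12, hd13]; linear_combination (5*x*i - x*i^2 + 10*x^2*i*e - 20*x^2*i^2*e - 5*x^3*i + 25*x^3*i^2 - 10*x^4*i*e + 30*x^4*i^2*e + x^5*i - 50*x^5*i^2 + 2*x^6*i*e - 14*x^6*i^2*e + 35*x^7*i^2 + 2*x^8*i^2*e - 10*x^9*i^2 + x^11*i^2) * ha + (9*x - 30*x*a*e - 2*x*i - 40*x^2*i*e + 15*x^3 + 50*x^3*a*e + 50*x^3*i + 10*x^4*e + 60*x^4*i*e - 48*x^5 - 26*x^5*a*e - 100*x^5*i - 10*x^6*e - 28*x^6*i*e + 35*x^7 + 4*x^7*a*e + 70*x^7*i + 2*x^8*e + 4*x^8*i*e - 10*x^9 - 20*x^9*i + x^11 + 2*x^11*i) * hi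
  have z15 : sol d 0 1 15 = -1 - 5*x*e - x*a + x*i*a + 27*x^2 - 2*x^2*i - 30*x^2*i*a*e - 20*x^3*e + 26*x^3*a + 20*x^3*i*e - 25*x^3*i*a - 101*x^4 + 10*x^4*a*e + 50*x^4*i + 20*x^4*i*a*e + 19*x^5*e - 75*x^5*a - 20*x^5*i*e + 50*x^5*i*a + 160*x^6 - 10*x^6*a*e - 100*x^6*i + 4*x^6*i*a*e + 85*x^7*a + 4*x^7*i*e - 35*x^7*i*a - 130*x^8 + 2*x^8*a*e + 70*x^8*i - 2*x^8*i*a*e - x^9*e - 45*x^9*a + 10*x^9*i*a + 56*x^10 - 20*x^10*i + 11*x^11*a - x^11*i*a - 12*x^12 + 2*x^12*i - x^13*a + x^14 := by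
    rw [show sol d 0 1 15 = -(d 14 * sol d 0 1 14) - sol d 0 1 13 from rfl,
      z14, z13, hd14]; linear_combination (10*x*e + 10*x*i*e - 20*x^3*e + 10*x^3*i*e + 12*x^5*e - 18*x^5*i*e - 2*x^7*e + 4*x^7*i*e) * ha + (20*x*e + 20*x^3*e - 36*x^5*e + 8*x^7*e) * hi
  have Y0 : sol f 1 0 0 = 1 := rfl
  have Y1 : sol f 1 0 1 = 0 := rfl
  have Y2 : sol f 1 0 2 = -1 := by
    rw [show sol f 1 0 2 = -(f 1 * sol f 1 0 1) - sol f 1 0 0 from rfl,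
      Y1, Y0, hf1]; ring
  have Y3 : sol f 1 0 3 = x := by
    rw [show sol f 1 0 3 = -(f 2 * sol f 1 0 2) - sol f 1 0 1 from rfl,
      Y2, Y1, hf2]; ring
  have Y4 : sol f 1 0 4 = 1 - x^2 := by
    rw [show sol f 1 0 4 = -(f 3 * sol f 1 0 3) - sol f 1 0 2 from rfl,
      Y3, Y2, hf3]; ring
  have Y5 : sol f 1 0 5 = -2*x + x^3 := by
    rw [show sol f 1 0 5 = -(f 4 * sol f 1 0 4) - sol f 1 0 3 from rfl,
      Y4, Y3, hf4]; ring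
  have Y6 : sol f 1 0 6 = -1 + 3*x^2 - x^4 := by
    rw [show sol f 1 0 6 = -(f 5 * sol f 1 0 5) - sol f 1 0 4 from rfl,
      Y5, Y4, hf5]; ring
  have Y7 : sol f 1 0 7 = 3*x - 4*x^3 + x^5 := by
    rw [show sol f 1 0 7 = -(f 6 * sol f 1 0 6) - sol f 1 0 5 from rfl,
      Y6, Y5, hf6]; ring
  have Y8 : sol f 1 0 8 = 1 - 6*x^2 + 5*x^4 - x^6 := by
    rw [show sol f 1 0 8 = -(f 7 * sol f 1 0 7) - sol f 1 0 6 from rfl,
      Y7, Y6, hf7]; ring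
  have Y9 : sol f 1 0 9 = -4*x + 10*x^3 - 6*x^5 + x^7 := by
    rw [show sol f 1 0 9 = -(f 8 * sol f 1 0 8) - sol f 1 0 7 from rfl,
      Y8, Y7, hf8]; ring
  have Y10 : sol f 1 0 10 = -1 + 10*x^2 - 15*x^4 + 7*x^6 - x^8 := by
    rw [show sol f 1 0 10 = -(f 9 * sol f 1 0 9) - sol f 1 0 8 from rfl,
      Y9, Y8, hf9]; ring
  have Y11 : sol f 1 0 11 = 5*x - 20*x^3 + 21*x^5 - 8*x^7 + x^9 := by
    rw [show sol f 1 0 11 = -(f 10 * sol f 1 0 10) - sol f 1 0 9 from rfl,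
      Y10, Y9, hf10]; ring
  have Y12 : sol f 1 0 12 = 1 - 15*x^2 + 35*x^4 - 28*x^6 + 9*x^8 - x^10 := by
    rw [show sol f 1 0 12 = -(f 11 * sol f 1 0 11) - sol f 1 0 10 from rfl,
      Y11, Y10, hf11]; ring
  have Y13 : sol f 1 0 13 = -6*x + 35*x^3 - 56*x^5 + 36*x^7 - 10*x^9 + x^11 := by
    rw [show sol f 1 0 13 = -(f 12 * sol f 1 0 12) - sol f 1 0 11 from rfl,
      Y12, Y11, hf12]; ring
  have Y14 : sol f 1 0 14 = -1 + 21*x^2 - 70*x^4 + 84*x^6 - 45*x^8 + 11*x^10 - x^12 := by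
    rw [show sol f 1 0 14 = -(f 13 * sol f 1 0 13) - sol f 1 0 12 from rfl,
      Y13, Y12, hf13]; ring
  have Y15 : sol f 1 0 15 = 7*x - 56*x^3 + 126*x^5 - 120*x^7 + 55*x^9 - 12*x^11 + x^13 := by
    rw [show sol f 1 0 15 = -(f 14 * sol f 1 0 14) - sol f 1 0 13 from rfl,
      Y14, Y13, hf14]; ring
  have Z0 : sol f 0 1 0 = 0 := rfl
  have Z1 : sol f 0 1 1 = 1 := rfl
  have Z2 : sol f 0 1 2 = -x := by
    rw [show sol f 0 1 2 = -(f 1 * sol f 0 1 1) - sol f 0 1 0 from rfl,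
      Z1, Z0, hf1]; ring
  have Z3 : sol f 0 1 3 = -1 + x^2 := by
    rw [show sol f 0 1 3 = -(f 2 * sol f 0 1 2) - sol f 0 1 1 from rfl,
      Z2, Z1, hf2]; ring
  have Z4 : sol f 0 1 4 = 2*x - x^3 := by
    rw [show sol f 0 1 4 = -(f 3 * sol f 0 1 3) - sol f 0 1 2 from rfl,
      Z3, Z2, hf3]; ring
  have Z5 : sol f 0 1 5 = 1 - 3*x^2 + x^4 := by
    rw [show sol f 0 1 5 = -(f 4 * sol f 0 1 4) - sol f 0 1 3 from rfl,
      Z4, Z3, hf4]; ring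
  have Z6 : sol f 0 1 6 = -3*x + 4*x^3 - x^5 := by
    rw [show sol f 0 1 6 = -(f 5 * sol f 0 1 5) - sol f 0 1 4 from rfl,
      Z5, Z4, hf5]; ring
  have Z7 : sol f 0 1 7 = -1 + 6*x^2 - 5*x^4 + x^6 := by
    rw [show sol f 0 1 7 = -(f 6 * sol f 0 1 6) - sol f 0 1 5 from rfl,
      Z6, Z5, hf6]; ring
  have Z8 : sol f 0 1 8 = 4*x - 10*x^3 + 6*x^5 - x^7 := by
    rw [show sol f 0 1 8 = -(f 7 * sol f 0 1 7) - sol f 0 1 6 from rfl,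
      Z7, Z6, hf7]; ring
  have Z9 : sol f 0 1 9 = 1 - 10*x^2 + 15*x^4 - 7*x^6 + x^8 := by
    rw [show sol f 0 1 9 = -(f 8 * sol f 0 1 8) - sol f 0 1 7 from rfl,
      Z8, Z7, hf8]; ring
  have Z10 : sol f 0 1 10 = -5*x + 20*x^3 - 21*x^5 + 8*x^7 - x^9 := by
    rw [show sol f 0 1 10 = -(f 9 * sol f 0 1 9) - sol f 0 1 8 from rfl,
      Z9, Z8, hf9]; ring
  have Z11 : sol f 0 1 11 = -1 + 15*x^2 - 35*x^4 + 28*x^6 - 9*x^8 + x^10 := by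
    rw [show sol f 0 1 11 = -(f 10 * sol f 0 1 10) - sol f 0 1 9 from rfl,
      Z10, Z9, hf10]; ring
  have Z12 : sol f 0 1 12 = 6*x - 35*x^3 + 56*x^5 - 36*x^7 + 10*x^9 - x^11 := by
    rw [show sol f 0 1 12 = -(f 11 * sol f 0 1 11) - sol f 0 1 10 from rfl,
      Z11, Z10, hf11]; ring
  have Z13 : sol f 0 1 13 = 1 - 21*x^2 + 70*x^4 - 84*x^6 + 45*x^8 - 11*x^10 + x^12 := by
    rw [show sol f 0 1 13 = -(f 12 * sol f 0 1 12) - sol f 0 1 11 from rfl,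
      Z12, Z11, hf12]; ring
  have Z14 : sol f 0 1 14 = -7*x + 56*x^3 - 126*x^5 + 120*x^7 - 55*x^9 + 12*x^11 - x^13 := by
    rw [show sol f 0 1 14 = -(f 13 * sol f 0 1 13) - sol f 0 1 12 from rfl,
      Z13, Z12, hf13]; ring
  have Z15 : sol f 0 1 15 = -1 + 28*x^2 - 126*x^4 + 210*x^6 - 165*x^8 + 66*x^10 - 13*x^12 + x^14 := by
    rw [show sol f 0 1 15 = -(f 14 * sol f 0 1 14) - sol f 0 1 13 from rfl,
      Z14, Z13, hf14]; ring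
  rw [z14, y15, z15, Z14, Y15, Z15, hd0, hf0]
  linear_combination (-x + x*i - 30*x^2*i*e + 26*x^3 - 25*x^3*i + 10*x^4*e + 20*x^4*i*e - 75*x^5 + 50*x^5*i - 10*x^6*e + 4*x^6*i*e + 85*x^7 - 35*x^7*i + 2*x^8*e - 2*x^8*i*e - 45*x^9 + 10*x^9*i + 11*x^11 - x^11*i - x^13) * ha + (2*x - 60*x^2*e - 50*x^3 + 40*x^4*e + 100*x^5 + 8*x^6*e - 70*x^7 - 4*x^8*e + 20*x^9 - 2*x^11) * hi

end Det

theorem D_eq {R : Type} [CommRing R] (q : ℕ) (V : Fin q → R) :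
    D q V = (L q (fun j => C (V j) - X)).det := by
  unfold D
  congr 1
  ext1 i j
  by_cases h : i = j
  · subst h
    simp [L]
  · simp only [L, Matrix.sub_apply, Matrix.map_apply, Matrix.of_apply, h, if_false,
      Matrix.smul_apply, Matrix.one_apply_ne h, smul_zero, sub_zero]
    split_ifs <;> simp

theorem D_map {R S : Type} [CommRing R] [CommRing S] (q : ℕ) (V : Fin q → R) (φ : R →+* S) :
    (D q V).map φ = D q (fun j => φ (V j)) := by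
  rw [D_eq, D_eq, ← Polynomial.coe_mapRingHom, RingHom.map_det]
  congr 1
  ext1 i j
  simp only [L, RingHom.mapMatrix_apply, Matrix.map_apply, Matrix.of_apply]
  split_ifs <;> simp

theorem D_key {R : Type} [CommRing R] (i a e : R) (hi : i * i + 1 = 0)
    (ha : a * a - (1 + 2 * i) = 0) (he : e * e = 0) :
    D 15 (fun j => vv i a e j.val) = D 15 (fun _ => (0 : R)) := by
  rw [D_eq, D_eq]
  have h1 := detL (fun j => C (vv i a e j) - X)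
  have h2 := detL (fun _ => C (0 : R) - X)
  rw [h1, h2]
  refine congrArg (fun t => 2 + t)
    (key (C i) (C a) (C e) (-X) ?_ ?_ ?_ _ _ (fun j => ?_) (fun j => by simp))
  · simpa using congrArg C hi
  · have := congrArg C ha
    simp only [map_sub, map_add, map_mul, map_one, map_zero, map_ofNat] at this
    exact this
  · simpa using congrArg C he
  · by_cases hj : j < 15
    · interval_cases j <;> simp [vv, sub_eq_add_neg]
    · have h3 : ∀ (T : Type) [CommRing T] (i a e : T), vv i a e j = 0 := by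
        intro T _ i a e
        unfold vv
        rw [List.getD_eq_default]
        simpa using hj
      simp [h3]

open TrivSqZeroExt

noncomputable def g (α : ℂ) (j : ℕ) : DualNumber ℂ :=
  vv (algebraMap ℂ _ Complex.I) (algebraMap ℂ _ α) DualNumber.eps j

noncomputable def φ (α : ℂ) : MvPolynomial (Fin (15 / 2)) ℂ →ₐ[ℂ] DualNumber ℂ :=
  MvPolynomial.aeval fun j => g α j.val

theorem hU (α : ℂ) : (fun j : Fin 15 => φ α (U 15 j)) = fun j : Fin 15 =>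
    vv (algebraMap ℂ (DualNumber ℂ) Complex.I) (algebraMap ℂ _ α) DualNumber.eps j.val := by
  funext j
  obtain ⟨j, hj⟩ := j
  interval_cases j <;> simp [U, φ, g, vv]

theorem gen {R S : Type} [CommRing R] [CommRing S] (q : ℕ) (V : Fin q → R) (ρ : R →+* S)
    (W : Fin q → S) (hW : (fun j => ρ (V j)) = W) (h : D q W = D q (fun _ => 0)) :
    (D q V - D q 0).map ρ = 0 := by
  have h0 : (fun j : Fin q => ρ ((0 : Fin q → R) j)) = fun _ => 0 := by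
    funext j
    exact map_zero _
  rw [Polynomial.map_sub, D_map, D_map, hW, h0, sub_eq_zero, h]

theorem rel1 {S : Type} [CommRing S] (ρ : ℂ →+* S) :
    ρ Complex.I * ρ Complex.I + 1 = 0 := by
  have := congrArg ρ (show Complex.I * Complex.I + 1 = 0 by simp)
  simpa only [map_add, map_mul, map_one, map_zero] using this

theorem rel2 {S : Type} [CommRing S] (ρ : ℂ →+* S) (α : ℂ) (hα : 1 + 2 * Complex.I = α * α) :
    ρ α * ρ α - (1 + 2 * ρ Complex.I) = 0 := by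
  have := congrArg ρ (show α * α - (1 + 2 * Complex.I) = 0 by rw [hα, sub_self])
  simpa only [map_sub, map_add, map_mul, map_one, map_zero, map_ofNat] using this

theorem hK (α : ℂ) (hα : 1 + 2 * Complex.I = α * α) :
    D 15 (fun j : Fin 15 => vv (algebraMap ℂ (DualNumber ℂ) Complex.I) (algebraMap ℂ _ α)
      DualNumber.eps j.val) = D 15 (fun _ => 0) :=
  D_key _ _ _ (rel1 _) (rel2 _ α hα) DualNumber.eps_mul_eps

theorem gen2 {R S : Type} [CommRing R] [CommRing S] (q : ℕ) (V : Fin q → R) (ρ : R →+* S)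
    (W : Fin q → S) (hW : (fun j => ρ (V j)) = W) (h : D q W = D q (fun _ => 0)) (k : ℕ) :
    ρ ((D q V - D q 0).coeff k) = 0 := by
  rw [← Polynomial.coeff_map, gen q V ρ W hW h, Polynomial.coeff_zero]

theorem gen3 (q : ℕ) (ρ : MvPolynomial (Fin (q / 2)) ℂ →ₐ[ℂ] DualNumber ℂ)
    (W : Fin q → DualNumber ℂ) (hW : (fun j => ρ (U q j)) = W)
    (h : D q W = D q (fun _ => 0)) : ∀ f ∈ I q, ρ f = 0 := by
  intro f hf
  refine (Ideal.span_le (I := RingHom.ker ρ.toRingHom)).2 ?_ hf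
  rintro _ ⟨k, -, -, rfl⟩
  rw [SetLike.mem_coe, RingHom.mem_ker, p, map_mul, gen2 q (U q) ρ.toRingHom W hW h, mul_zero]

theorem hI (α : ℂ) (hα : 1 + 2 * Complex.I = α * α) : ∀ f ∈ I 15, φ α f = 0 :=
  gen3 15 (φ α) _ (hU α) (hK α hα)

theorem hfst (α : ℂ) (f : MvPolynomial (Fin (15 / 2)) ℂ) :
    (φ α f).fst = MvPolynomial.eval (fun j => (g α j.val).fst) f := by
  induction f using MvPolynomial.induction_on with
  | C c => simp [φ, algebraMap_eq_inl]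
  | add f1 f2 h1 h2 => simp [h1, h2]
  | mul_X f1 j h1 => rw [map_mul, map_mul, fst_mul, h1]; simp [φ]

theorem loc {A : Type} [CommRing A] [Algebra ℂ A] (S : Submonoid A) (ψ : A →ₐ[ℂ] DualNumber ℂ)
    (hu : ∀ y : S, IsUnit (ψ y)) (hs : Function.Surjective ψ) :
    2 ≤ Module.rank ℂ (Localization S) := by
  have h2 : Module.rank ℂ (DualNumber ℂ) = 2 := by
    show Module.rank ℂ (ℂ × ℂ) = 2
    simp [one_add_one_eq_two]
  rw [← h2]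
  refine LinearMap.rank_le_of_surjective
    (IsLocalization.liftAlgHom (S := Localization S) hu).toLinearMap fun z => ?_
  obtain ⟨y, rfl⟩ := hs z
  exact ⟨algebraMap _ _ y, IsLocalization.lift_eq hu y⟩

theorem result : ∃ a : Fin (15 / 2) → ℂ, a ≠ 0 ∧ (∀ f ∈ I 15, MvPolynomial.eval a f = 0) ∧
    2 ≤ mult 15 a := by
  obtain ⟨α, hα⟩ := IsAlgClosed.exists_eq_mul_self (1 + 2 * Complex.I)
  refine ⟨fun j => (g α j.val).fst, fun h => ?_,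
    fun f hf => by rw [← hfst, hI α hα f hf, fst_zero], ?_⟩
  · have h0 : α = 0 := by
      simpa [g, vv, algebraMap_eq_inl] using congrFun h ⟨0, by norm_num⟩
    rw [h0] at hα
    have := congrArg Complex.re hα
    simp at this
  · refine loc _ (Ideal.Quotient.liftₐ (I 15) (φ α) (hI α hα)) ?_ fun z => ?_
    · rintro ⟨_, f, hf, rfl⟩
      show IsUnit (φ α f)
      rw [isUnit_iff_isUnit_fst, hfst]
      exact (mem_nonZeroDivisors_iff_ne_zero.1 hf).isUnit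
    · refine ⟨Ideal.Quotient.mk (I 15) (MvPolynomial.C z.fst +
        MvPolynomial.C z.snd * MvPolynomial.X ⟨2, by norm_num⟩), ?_⟩
      show φ α _ = z
      ext <;> simp [φ, g, vv, algebraMap_eq_inl]

end Pool.Agent.Results.MP_61df98_mp.No
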